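import Pool.Agent.H84.NT.Targets

open MeasureTheory ProbabilityTheory
open scoped ENNReal

namespace Pool.Agent.H57.NT

open Pool.Agent.H99.NS Pool.Agent.H22.LPP Pool.Agent.H95.INS Pool.Agent.H84.NT

lemma sg_pos {q : ℝ} (h0 : 0 < q) (h1 : q < 1) : 0 < sg q := by
  unfold sg
  exact div_pos (Real.sqrt_pos.2 h0) (by linarith)

/-- crossing event of a slab -/
def EE (q K2 : ℝ) (B : ℤ) (k : ℕ) (s t : ℤ) : Set Env :=
  {ω | ∀ x y : ℤ, |x| ≤ B → |y| ≤ B → Reach (s, x) (t, y) →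
    par q (s, x) (t, y) - K2 * 4 ^ k ≤ T ω (s, x) (t, y)}

lemma EE_meas (q K2 : ℝ) (B : ℤ) (k : ℕ) (s t : ℤ) : MeasurableSet (EE q K2 B k s t) := by
  unfold EE
  simp only [Set.setOf_forall]
  refine MeasurableSet.iInter fun x => MeasurableSet.iInter fun y => MeasurableSet.iInter fun _ =>
    MeasurableSet.iInter fun _ => MeasurableSet.iInter fun _ => ?_
  exact measurableSet_le measurable_const (measurable_T _ _)

lemma EE_dep (q K2 : ℝ) (B : ℤ) (k : ℕ) (s t : ℤ) :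
    DepOn (slab s t) (fun ω => ω ∈ EE q K2 B k s t) := by
  intro ω ω' h
  unfold EE
  simp only [Set.mem_ofPred_eq, eq_iff_iff]
  refine forall₅_congr fun x y _ _ _ => ?_
  have h1 := depOn_T_slab (s := s) (t := t) (u := (s, x)) (v := (t, y)) le_rfl le_rfl ω ω' h
  simp only at h1
  rw [h1]

lemma dep_inter {A : Set Site} {E F : Set Env} (hE : DepOn A (fun ω => ω ∈ E))
    (hF : DepOn A (fun ω => ω ∈ F)) : DepOn A (fun ω => ω ∈ E ∩ F) := by
  intro ω ω' h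
  have h1 := hE ω ω' h
  have h2 := hF ω ω' h
  simp only [eq_iff_iff] at h1 h2
  simp only [Set.mem_inter_iff, eq_iff_iff]
  rw [h1, h2]

lemma slab_mono {s t s' t' : ℤ} (h : s' ≤ s) (h' : t ≤ t') : slab s t ⊆ slab s' t' := by
  rintro x ⟨h1, h2⟩
  exact ⟨by omega, by omega⟩

lemma exists_K2 (C c : ℝ) (hC : 0 < C) (hc : 0 < c) :
    ∃ K2 : ℝ, 0 ≤ K2 ∧ C * Real.exp (-(c * K2)) ≤ 1 / 4 := by
  refine ⟨4 * C / c, by positivity, ?_⟩
  have h1 : c * (4 * C / c) = 4 * C := by field_simp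
  rw [h1, Real.exp_neg]
  have h2 : 4 * C + 1 ≤ Real.exp (4 * C) := Real.add_one_le_exp _
  have h3 : 0 < Real.exp (4 * C) := Real.exp_pos _
  rw [← div_eq_mul_inv, div_le_iff₀ h3]
  linarith

lemma exists_R (CA cA p3 g : ℝ) (hCA : 0 < CA) (hcA : 0 < cA) (hp : 0 < p3) (hg : 0 < g) :
    ∃ R : ℤ, 2 ≤ R ∧ CA * R * Real.exp (-(cA * R)) ≤ p3 / 4 ∧
      2 * (R : ℝ) < g / 3 * ((R : ℝ) - 1) ^ 2 := by
  obtain ⟨N, hN⟩ := exists_nat_gt (max 2 (max (8 * CA / (cA ^ 2 * p3)) (24 / g)))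
  have h1 : (2 : ℝ) < N := lt_of_le_of_lt (le_max_left _ _) hN
  have h2 : 8 * CA / (cA ^ 2 * p3) < N :=
    lt_of_le_of_lt ((le_max_left _ _).trans (le_max_right _ _)) hN
  have h3 : 24 / g < N := lt_of_le_of_lt ((le_max_right _ _).trans (le_max_right _ _)) hN
  have hNp : (0 : ℝ) < N := by linarith
  refine ⟨N, by exact_mod_cast h1.le, ?_, ?_⟩
  · push_cast
    have h4 : (cA * N) ^ 2 / 2 ≤ Real.exp (cA * N) := by
      have := Real.quadratic_le_exp_of_nonneg (x := cA * N) (by positivity)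
      nlinarith [mul_pos hcA hNp]
    rw [Real.exp_neg, ← div_eq_mul_inv, div_le_iff₀ (Real.exp_pos _)]
    rw [div_lt_iff₀ (by positivity)] at h2
    have h5 : CA * N ≤ p3 / 4 * ((cA * N) ^ 2 / 2) := by
      have h6 : 8 * CA ≤ N * (cA ^ 2 * p3) := h2.le
      have h7 := mul_le_mul_of_nonneg_right h6 hNp.le
      nlinarith
    refine h5.trans (mul_le_mul_of_nonneg_left h4 (by positivity))
  · push_cast
    rw [div_lt_iff₀ hg] at h3
    have h4 : (N : ℝ) ^ 2 / 4 ≤ ((N : ℝ) - 1) ^ 2 := by nlinarith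
    have h5 : 2 * (N : ℝ) < g / 3 * ((N : ℝ) ^ 2 / 4) := by nlinarith
    refine lt_of_lt_of_le h5 (mul_le_mul_of_nonneg_left h4 (by positivity))

theorem pf_HPOS (h_HPD : T_HPD) (h_HHD : T_HHD) (h_FIM : T_FIM) : T_HPOS := by
  intro q hq0 hq1 hG hW hA K1 Cd hK1 hCd
  have hsg := sg_pos hq0 hq1
  obtain ⟨C, c, hC, hc, kG, hkG1, hG⟩ := hG 16 (Cd + 1).toNat (by norm_num) (by omega)
  have hCdN : (((Cd + 1).toNat : ℕ) : ℤ) = Cd + 1 := Int.toNat_of_nonneg (by omega)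
  obtain ⟨K2, hK2, hK2e⟩ := exists_K2 C c hC hc
  obtain ⟨p3, kW, hp3, hkW1, hW⟩ := hW (max 1 (K1 + 2 * K2 + 2 * sg q * (1 + ((Cd : ℝ) + 1) ^ 2)))
    (le_max_left _ _)
  obtain ⟨CA, cA, hCA, hcA, hA⟩ := hA
  obtain ⟨R, hR2, hRe, hRs⟩ := exists_R CA cA p3 (sg q) hCA hcA hp3 hsg
  refine ⟨p3 / 4, R, max (max kG kW) ((Cd + 1).toNat + 1), by positivity, hR2,
    le_trans hkG1 ((le_max_left _ _).trans (le_max_left _ _)), ?_⟩
  intro k hk
  have hkG : kG ≤ k := ((le_max_left _ _).trans (le_max_left _ _)).trans hk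
  have hkW : kW ≤ k := ((le_max_right _ _).trans (le_max_left _ _)).trans hk
  have hkC : (Cd + 1).toNat + 1 ≤ k := (le_max_right _ _).trans hk
  set K3 := max 1 (K1 + 2 * K2 + 2 * sg q * (1 + ((Cd : ℝ) + 1) ^ 2)) with hK3
  set h : ℤ := 64 ^ (k - 1) with hh
  have hh0 : 0 < h := by positivity
  have hlv : lv k = 32 * h := rfl
  have hwin : (Cd + 1) * 16 ^ k ≤ 16 * 64 ^ (k - 1) := by
    obtain ⟨j, rfl⟩ : ∃ j, k = j + 1 := ⟨k - 1, by omega⟩
    simp only [Nat.add_sub_cancel]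
    have h1 : Cd + 1 ≤ 4 ^ j := by
      have h2 : (Cd + 1).toNat ≤ j := by omega
      have h3 : j < 4 ^ j := Nat.lt_pow_self (by norm_num)
      have h4 : (((Cd + 1).toNat : ℕ) : ℤ) ≤ ((4 ^ j : ℕ) : ℤ) := by exact_mod_cast h2.trans h3.le
      rw [hCdN] at h4
      push_cast at h4
      exact h4
    have h5 : (64 : ℤ) ^ j = 16 ^ j * 4 ^ j := by rw [← mul_pow]; norm_num
    rw [h5, pow_succ]
    have h6 : (0 : ℤ) < 16 ^ j := by positivity
    nlinarith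
  -- the events
  set B : ℤ := (Cd + 1) * 16 ^ k with hB
  have h16 : (0 : ℤ) < 16 ^ k := by positivity
  have hB16 : (16 : ℤ) ^ k ≤ B := by rw [hB]; nlinarith
  set E1 := EE q K2 B k (-lv k) (-(16 * h)) with hE1
  set E3 := EE q K2 B k (16 * h) (lv k) with hE3
  set E2 : Set Env := {ω | mu q * (32 * 64 ^ (k - 1)) + K3 * 4 ^ k ≤
    T ω (-(16 * h), 0) (16 * h, 0)} with hE2
  have hE2m : MeasurableSet E2 := measurableSet_le measurable_const (measurable_T _ _)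
  have hE2d : DepOn (slab (-(16 * h)) (16 * h)) (fun ω => ω ∈ E2) := by
    intro ω ω' hω
    have h1 := depOn_T_slab (s := -(16 * h)) (t := 16 * h) (u := (-(16 * h), 0))
      (v := (16 * h, 0)) le_rfl le_rfl ω ω' hω
    simp only at h1
    simp only [hE2, Set.mem_ofPred_eq]
    rw [h1]
  -- probabilities of the crossing events
  have hEEp : ∀ s t : ℤ, t - s = 16 * 64 ^ (k - 1) → 3 / 4 ≤ (PE q).real (EE q K2 B k s t) := by
    intro s t hst
    have h1 := hG k hkG s t (by push_cast; exact hst) K2 hK2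
    have h2 : (EE q K2 B k s t)ᶜ ⊆ {ω | ∃ x y : ℤ, |x| ≤ (((Cd + 1).toNat : ℕ) : ℤ) * 16 ^ k ∧
        |y| ≤ (((Cd + 1).toNat : ℕ) : ℤ) * 16 ^ k ∧
        Reach (s, x) (t, y) ∧ T ω (s, x) (t, y) < par q (s, x) (t, y) - K2 * 4 ^ k} := by
      intro ω hω
      unfold EE at hω
      simp only [Set.mem_compl_iff, Set.mem_ofPred_eq] at hω ⊢
      push Not at hω
      obtain ⟨x, y, hx, hy, hr, hT⟩ := hω
      exact ⟨x, y, by rw [hCdN]; exact hx, by rw [hCdN]; exact hy, hr, hT⟩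
    have h3 := (measureReal_mono (μ := PE q) h2).trans h1
    have h4 := probReal_compl_eq_one_sub (μ := PE q) (EE_meas q K2 B k s t)
    linarith
  have hp1 : 3 / 4 ≤ (PE q).real E1 := hEEp _ _ (by rw [hlv, hh]; ring)
  have hp3' : 3 / 4 ≤ (PE q).real E3 := hEEp _ _ (by rw [hlv, hh]; ring)
  have hp2 : p3 ≤ (PE q).real E2 := hW k hkW
  -- independence
  have hind : (PE q).real (E1 ∩ (E2 ∩ E3)) =
      (PE q).real E1 * ((PE q).real E2 * (PE q).real E3) := by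
    have i1 : PE q (E2 ∩ E3) = PE q E2 * PE q E3 :=
      measure_inter_of_depOn q (slab_disjoint (le_refl (16 * h))) hE2m (EE_meas _ _ _ _ _ _)
        hE2d (EE_dep _ _ _ _ _ _)
    have i2 : PE q (E1 ∩ (E2 ∩ E3)) = PE q E1 * PE q (E2 ∩ E3) := by
      refine measure_inter_of_depOn q (slab_disjoint (le_refl (-(16 * h))))
        (EE_meas _ _ _ _ _ _) (hE2m.inter (EE_meas _ _ _ _ _ _)) (EE_dep _ _ _ _ _ _)
        (B := slab (-(16 * h)) (lv k)) ?_
      refine dep_inter (hE2d.mono (slab_mono le_rfl (by rw [hlv]; omega)))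
        ((EE_dep _ _ _ _ _ _).mono (slab_mono (by omega) le_rfl))
    simp only [Measure.real, i2, i1, ENNReal.toReal_mul]
  have hind2 : p3 / 2 ≤ (PE q).real (E1 ∩ (E2 ∩ E3)) := by
    rw [hind]
    have j1 : p3 * (3 / 4) ≤ (PE q).real E2 * (PE q).real E3 :=
      mul_le_mul hp2 hp3' (by norm_num) (hp3.le.trans hp2)
    have j2 : 3 / 4 * (p3 * (3 / 4)) ≤
        (PE q).real E1 * ((PE q).real E2 * (PE q).real E3) :=
      mul_le_mul hp1 j1 (by positivity) (by linarith)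
    linarith
  -- the last event
  set E4 : Set Env := {ω | ∀ (s t : ℤ) (g : ℤ → ℤ), -lv k ≤ s → s ≤ t → t ≤ lv k →
    IsPath s t g → |g s| ≤ R * 16 ^ k → wt ω s t g ≤ sp q (64 ^ k / 50) s t g + R * 4 ^ k} with hE4
  have hp4 : (PE q).real E4ᶜ ≤ p3 / 4 := by
    have h1 := hA k R R (by omega) (by omega) (by exact_mod_cast (by omega : (1 : ℤ) ≤ R))
    have h2 : E4ᶜ ⊆ {ω | ∃ (s t : ℤ) (g : ℤ → ℤ), -(32 * 64 ^ (k - 1)) ≤ s ∧ s ≤ t ∧
        t ≤ 32 * 64 ^ (k - 1) ∧ IsPath s t g ∧ |g s| ≤ R * 16 ^ k ∧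
        sp q (64 ^ k / 50) s t g + R * 4 ^ k < wt ω s t g} := by
      intro ω hω
      simp only [hE4, Set.mem_compl_iff, Set.mem_ofPred_eq] at hω ⊢
      push Not at hω
      exact hω
    have h3 := (measure_mono h2).trans h1
    have h4 : (PE q).real E4ᶜ ≤ CA * R * Real.exp (-(cA * R)) := by
      have hRp : (0 : ℝ) < R := by exact_mod_cast (by omega : (0 : ℤ) < R)
      exact ENNReal.toReal_le_of_le_ofReal (by positivity) h3
    exact h4.trans hRe
  have hsub : (E1 ∩ (E2 ∩ E3)) ⊆ {ω | HH q K1 Cd R k ω} ∪ E4ᶜ := by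
    rintro ω ⟨h1, h2, h3⟩
    by_cases h4 : ω ∈ E4
    · left
      refine h_HPD q K1 K2 K3 Cd R k ω hq0 hq1 (by omega) hK1 hK2 hCd hR2 hwin
        (le_max_right _ _) hRs ?_ h2 ?_ h4
      · intro y hy hr
        exact h1 y 0 (hy.trans hB16) (by simpa using h16.le.trans hB16) hr
      · intro y hy hr
        exact h3 0 y (by simpa using h16.le.trans hB16) hy hr
    · right
      exact h4
  have h5 := (measureReal_mono (μ := PE q) hsub).trans (measureReal_union_le _ _)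
  linarith

end Pool.Agent.H57.NT
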