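import Pool.Agent.H84.NT.Targets

open MeasureTheory ProbabilityTheory
open scoped ENNReal

namespace Pool.Agent.H57.NT

open Pool.Agent.H99.NS Pool.Agent.H22.LPP Pool.Agent.H95.INS Pool.Agent.H84.NT
open Pool.Agent.H84.GL (D_HW)

theorem pf_HWK : T_HWK := by
  intro hHW q hq0 hq1 K hK
  obtain ⟨C, hC, hC2⟩ := hHW q hq0 hq1
  obtain ⟨N0, hN0⟩ := hC2 (2 * K) (by linarith)
  refine ⟨Real.exp (-(C * (2 * K) ^ ((3:ℝ)/2))), N0 + 1, Real.exp_pos _, Nat.le_add_left _ _, ?_⟩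
  intro k hk
  obtain ⟨j, rfl⟩ : ∃ j, k = j + 1 := ⟨k - 1, by omega⟩
  have hj : N0 ≤ 16 * 64 ^ j := by
    have h1 : j < 64 ^ j := Nat.lt_pow_self (by norm_num)
    omega
  have h2 := hN0 (16 * 64 ^ j) hj
  have h3 : PE q {ω | mu q * (2 * ((16 * 64 ^ j : ℕ) : ℝ)) +
      2 * K * ((2 * (16 * 64 ^ j) : ℕ) : ℝ) ^ ((1:ℝ)/3) ≤
        T ω (0, 0) ((2 * (16 * 64 ^ j) : ℕ), 0)} =
      PE q {ω | mu q * (2 * ((16 * 64 ^ j : ℕ) : ℝ)) +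
      2 * K * ((2 * (16 * 64 ^ j) : ℕ) : ℝ) ^ ((1:ℝ)/3) ≤
        T ω (-(16 * 64 ^ j), 0) (16 * 64 ^ j, 0)} := by
    have h4 := law_diff q (u := ((0 : ℤ), (0 : ℤ))) (v := (((2 * (16 * 64 ^ j) : ℕ) : ℤ), (0 : ℤ)))
      (u' := (-(16 * 64 ^ j), 0)) (v' := (16 * 64 ^ j, 0)) (by
        ext
        · simp only [Prod.fst_sub]; push_cast; ring
        · simp)
      (Set.Ici (mu q * (2 * ((16 * 64 ^ j : ℕ) : ℝ)) +
      2 * K * ((2 * (16 * 64 ^ j) : ℕ) : ℝ) ^ ((1:ℝ)/3))) measurableSet_Ici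
    exact h4
  rw [h3] at h2
  simp only [Nat.add_sub_cancel]
  have h5 : PE q {ω | mu q * (2 * ((16 * 64 ^ j : ℕ) : ℝ)) +
      2 * K * ((2 * (16 * 64 ^ j) : ℕ) : ℝ) ^ ((1:ℝ)/3) ≤
        T ω (-(16 * 64 ^ j), 0) (16 * 64 ^ j, 0)} ≤
      PE q {ω | mu q * (32 * 64 ^ j) + K * 4 ^ (j + 1) ≤
        T ω (-(16 * 64 ^ j), 0) (16 * 64 ^ j, 0)} := by
    refine measure_mono fun ω hω => ?_
    simp only [Set.mem_ofPred_eq] at hω ⊢
    refine le_trans ?_ hω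
    have e1 : mu q * (2 * ((16 * 64 ^ j : ℕ) : ℝ)) = mu q * (32 * 64 ^ j) := by
      push_cast; ring
    have e2 : (2 : ℝ) * 4 ^ j ≤ ((2 * (16 * 64 ^ j) : ℕ) : ℝ) ^ ((1:ℝ)/3) := by
      have gen : ∀ x : ℝ, 0 ≤ x → x = (x ^ 3) ^ ((1:ℝ)/3) := by
        intro x hx
        have h7 : x ^ 3 = x ^ ((3 : ℕ) : ℝ) := (Real.rpow_natCast x 3).symm
        rw [h7, ← Real.rpow_mul hx]
        norm_num
      have e3 : (2 : ℝ) * 4 ^ j = ((2 * 4 ^ j) ^ 3) ^ ((1:ℝ)/3) := gen _ (by positivity)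
      rw [e3]
      refine Real.rpow_le_rpow (by positivity) ?_ (by norm_num)
      have e4 : ((2 : ℝ) * 4 ^ j) ^ 3 = 8 * 64 ^ j := by
        rw [mul_pow, ← pow_mul, mul_comm j 3, pow_mul]
        norm_num
      rw [e4]
      push_cast
      have e5 : (0 : ℝ) < 64 ^ j := by positivity
      linarith
    rw [e1]
    have e6 : K * 4 ^ (j + 1) = 2 * K * (2 * 4 ^ j) := by ring
    rw [e6]
    have e7 := mul_le_mul_of_nonneg_left e2 (show (0 : ℝ) ≤ 2 * K by linarith)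
    linarith
  have h6 := h2.trans h5
  rw [ENNReal.ofReal_le_iff_le_toReal (measure_ne_top _ _)] at h6
  exact h6

end Pool.Agent.H57.NT
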